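import Pool.Agent.APHM.Scale
import Pool.Agent.APLarge.NearM

/-!
Counting the members through `x`.
-/

set_option autoImplicit false

namespace Pool.Agent.APHM

open Finset Pool.Agent.APInt Pool.Agent.APLarge Pool.Agent.APLarge.NearC

/-- the progressions of difference `d` through `x` in the family -/
noncomputable def RR (N : ℕ) (F : Finset (Finset ℤ)) (x : ℤ) (d : ℕ) : Finset (ℕ × ℕ) :=
  ((range (N + 1)) ×ˢ (range (N + 1))).filter (fun p => 2 ≤ p.1 + p.2 ∧ seg x d p.1 p.2 ∈ F)

/-- the differences `d` with an excess -/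
noncomputable def excN (N : ℕ) (F : Finset (Finset ℤ)) (x : ℤ) : Finset ℕ :=
  (Icc 1 N).filter (fun d => seg x d 2 2 ∈ F ∧ seg x d 2 0 ∈ F ∧ seg x d 0 2 ∈ F)

open Classical in
/-- the elements missed together with `x` -/
noncomputable def Un (N : ℕ) (F : Finset (Finset ℤ)) (x : ℤ) : Finset ℤ :=
  ((Icc (1 : ℤ) N).erase x).filter (fun y => ∃ B ∈ F, x ∉ B ∧ y ∉ B)

lemma isAP_seg (x : ℤ) (d i j : ℕ) (hd : 1 ≤ d) : IsAP (seg x d i j) := by
  refine ⟨x + (-(i : ℤ)) * d, d, i + j + 1, by omega, by omega, ?_⟩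
  ext t
  rw [mem_seg]
  simp only [mem_image, mem_range]
  constructor
  · rintro ⟨k, hk1, hk2, rfl⟩
    refine ⟨(k + i).toNat, by omega, ?_⟩
    rw [Int.toNat_of_nonneg (by omega)]
    ring
  · rintro ⟨k, hk, rfl⟩
    exact ⟨(k : ℤ) - i, by omega, by omega, by ring⟩

open Classical in
/-- small members through `x` -/
lemma small_count {N : ℕ} {F : Finset (Finset ℤ)} (hF : Admissible N F) {x : ℤ}
    (hx : x ∈ Icc (1 : ℤ) N) (hR : ∃ B ∈ F, x ∉ B) :
    (F.filter (fun A => x ∈ A ∧ A.card ≤ 2)).card + (Un N F x).card ≤ N - 1 := by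
  obtain ⟨B, hB, hxB⟩ := hR
  have h1 : F.filter (fun A => x ∈ A ∧ A.card ≤ 2) ⊆
      (((Icc (1 : ℤ) N).erase x) \ Un N F x).image (fun y => {x, y}) := by
    intro A hA
    rw [mem_filter] at hA
    obtain ⟨hAF, hxA, hc⟩ := hA
    have hne : A ≠ B := by rintro rfl; exact hxB hxA
    obtain ⟨t, ht⟩ := (hF.2 A hAF B hB hne).nonempty
    rw [mem_inter] at ht
    have htx : t ≠ x := by rintro rfl; exact hxB ht.2
    have hAt : A = {x, t} := by
      symm
      apply eq_of_subset_of_card_le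
      · intro s hs
        simp only [mem_insert, mem_singleton] at hs
        rcases hs with rfl | rfl
        · exact hxA
        · exact ht.1
      · rw [card_pair htx.symm]; exact hc
    rw [mem_image]
    refine ⟨t, ?_, hAt.symm⟩
    rw [mem_sdiff, mem_erase]
    refine ⟨⟨htx, hF.1 A hAF ht.1⟩, ?_⟩
    intro hU
    rw [Un, mem_filter] at hU
    obtain ⟨_, B', hB', hxB', htB'⟩ := hU
    have hne' : A ≠ B' := by rintro rfl; exact hxB' hxA
    obtain ⟨s, hs⟩ := (hF.2 A hAF B' hB' hne').nonempty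
    rw [mem_inter, hAt] at hs
    simp only [mem_insert, mem_singleton] at hs
    rcases hs with ⟨rfl | rfl, hs⟩
    · exact hxB' hs
    · exact htB' hs
  have h2 := (card_le_card h1).trans card_image_le
  have h3 : Un N F x ⊆ (Icc (1 : ℤ) N).erase x := filter_subset _ _
  have h4 := card_sdiff_add_card_eq_card h3
  rw [card_erase_of_mem hx, Int.card_Icc] at h4
  omega

open Classical in
/-- members through `x` which are not progressions -/
lemma nonap_count {N : ℕ} {F : Finset (Finset ℤ)} (hF : Admissible N F) {x : ℤ}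
    (K : ℤ × ℤ → Prop)
    (hK : ∀ A ∈ F, x ∈ A → ¬ IsAP A → ∃ p : ℤ × ℤ, p.1 < p.2 ∧ Own x A p.1 p.2 ∧ ¬ K p) :
    (F.filter (fun A => x ∈ A ∧ ¬ IsAP A)).card ≤
      ((prs N x).filter (fun p => ¬ K p ∧ ¬ Oml F x p)).card := by
  have h1 : ∀ A ∈ F.filter (fun A => x ∈ A ∧ ¬ IsAP A), ∃ p : ℤ × ℤ,
      p.1 < p.2 ∧ Own x A p.1 p.2 ∧ ¬ K p := by
    intro A hA
    rw [mem_filter] at hA
    exact hK A hA.1 hA.2.1 hA.2.2
  choose! f hf using h1
  apply card_le_card_of_injOn f
  · intro A hA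
    have hA' := hA
    rw [mem_coe, mem_filter] at hA'
    obtain ⟨h2, h3, h4⟩ := hf A hA
    rw [mem_coe, mem_filter]
    refine ⟨?_, h4, ?_⟩
    · exact h3.mem_prs (hF.1 A hA'.1) h2
    · rintro ⟨P, hP, hPA, hxP, h5, h6⟩
      have hne : A ≠ P := by
        rintro rfl
        exact hA'.2.2 hPA
      exact h3.exclusive hF hA'.1 hP hne hxP hA'.2.1 ⟨h5, h6⟩
  · intro A hA B hB hAB
    by_contra hne
    have hA' := hA
    have hB' := hB
    rw [mem_coe, mem_filter] at hA' hB'
    have h3 := (hf A hA).2.1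
    have h4 := (hf B hB).2.1
    refine h3.exclusive hF hA'.1 hB'.1 hne hB'.2.1 hA'.2.1 ?_
    rw [hAB]
    exact ⟨h4.1, h4.2.1⟩

open Classical in
/-- members through `x` which are progressions with at least three terms -/
lemma ap_count {N : ℕ} {F : Finset (Finset ℤ)} (hF : Admissible N F) {x : ℤ}
    (K : ℤ × ℤ → Prop) (lb : ℕ → Finset (ℤ × ℤ))
    (hlb : ∀ d ∈ Icc 1 N, lb d ⊆ cop (RR N F x d))
    (hcard : ∀ d ∈ Icc 1 N, (RR N F x d).card ≤ (lb d).card + if Exc (RR N F x d) then 1 else 0)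
    (hK : ∀ d ∈ Icc 1 N, ∀ p ∈ lb d, ¬ K (x + p.1 * d, x + p.2 * d)) :
    (F.filter (fun A => x ∈ A ∧ IsAP A ∧ 3 ≤ A.card)).card ≤
      ((prs N x).filter (fun p => Oml F x p ∧ ¬ K p)).card + (excN N F x).card := by
  obtain ⟨hsub, hint⟩ := hF
  set Fa := F.filter (fun A => x ∈ A ∧ IsAP A ∧ 3 ≤ A.card) with hFa
  have hFa1 : Fa.card ≤ ∑ d ∈ Icc 1 N, (RR N F x d).card := by
    have h1 : Fa ⊆ (Icc 1 N).biUnion (fun d => (RR N F x d).image (fun p => seg x d p.1 p.2)) := by
      intro P hP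
      obtain ⟨hPF, hxP, hPAP, hc⟩ := mem_filter.1 hP
      obtain ⟨d, hd, i, hi, j, hj, hij, rfl⟩ := exists_seg hPAP hxP hc (hsub P hPF)
      simp only [mem_biUnion, mem_image]
      refine ⟨d, hd, (i, j), ?_, rfl⟩
      simp only [RR, mem_filter, mem_product]
      exact ⟨⟨hi, hj⟩, hij, hPF⟩
    refine le_trans (card_le_card h1) (le_trans card_biUnion_le ?_)
    apply sum_le_sum
    intro d _
    exact card_image_le
  have hFa2 : ∑ d ∈ Icc 1 N, (RR N F x d).card ≤ ∑ d ∈ Icc 1 N, (lb d).card +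
      ∑ d ∈ Icc 1 N, (if Exc (RR N F x d) then 1 else 0) := by
    rw [← sum_add_distrib]
    exact sum_le_sum hcard
  have hFa3 : ∑ d ∈ Icc 1 N, (if Exc (RR N F x d) then 1 else 0) ≤ (excN N F x).card := by
    rw [← card_filter]
    apply card_le_card
    intro d hd
    rw [mem_filter] at hd
    obtain ⟨hd1, h22, h20, h02⟩ := hd
    simp only [RR, mem_filter] at h22 h20 h02
    rw [excN, mem_filter]
    exact ⟨hd1, h22.2.2, h20.2.2, h02.2.2⟩
  have hFa4 : ∑ d ∈ Icc 1 N, (lb d).card ≤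
      ((prs N x).filter (fun p => Oml F x p ∧ ¬ K p)).card := by
    rw [← card_sigma]
    apply card_le_card_of_injOn
      (fun q : (Σ _ : ℕ, ℤ × ℤ) => ((x : ℤ) + q.2.1 * q.1, (x : ℤ) + q.2.2 * q.1))
    · rintro ⟨d, a, b⟩ hq
      rw [mem_coe, mem_sigma] at hq
      obtain ⟨hd, hab'⟩ := hq
      have hd' : 1 ≤ d ∧ d ≤ N := mem_Icc.1 hd
      have hab := hlb d hd hab'
      obtain ⟨h1, h2, h3, h4, ⟨i, j⟩, hp, h5, h6⟩ := mem_cop hab
      simp only at h5 h6
      have hp' := hp
      simp only [RR, mem_filter, mem_product] at hp'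
      obtain ⟨_, hij, hPF⟩ := hp'
      have hya : (x : ℤ) + a * d ∈ seg x d i j := mem_seg.2 ⟨a, h5, by omega, rfl⟩
      have hyb : (x : ℤ) + b * d ∈ seg x d i j := mem_seg.2 ⟨b, by omega, h6, rfl⟩
      have hxs : x ∈ seg x d i j := mem_seg.2 ⟨0, by omega, by omega, by ring⟩
      have hd0 : (0 : ℤ) < d := by omega
      have hane : a * d ≠ 0 := mul_ne_zero h2 (by omega)
      have hbne : b * d ≠ 0 := mul_ne_zero h3 (by omega)
      have hlt : a * d < b * d := mul_lt_mul_of_pos_right h1 hd0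
      have hya' := mem_Icc.1 (hsub _ hPF hya)
      have hyb' := mem_Icc.1 (hsub _ hPF hyb)
      show ((x : ℤ) + a * d, (x : ℤ) + b * d) ∈
        (((prs N x).filter (fun p => Oml F x p ∧ ¬ K p) : Finset (ℤ × ℤ)) : Set (ℤ × ℤ))
      rw [mem_coe, mem_filter, mem_prs]
      refine ⟨⟨⟨hya'.1, hya'.2, by show x + a * d ≠ x; omega⟩,
        ⟨hyb'.1, hyb'.2, by show x + b * d ≠ x; omega⟩, by show x + a * d < x + b * d; omega⟩,
        ⟨seg x d i j, hPF, isAP_seg x d i j hd'.1, hxs, hya, hyb⟩, ?_⟩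
      exact hK d hd (a, b) hab'
    · rintro ⟨d, a, b⟩ hq ⟨d', a', b'⟩ hq' heq
      rw [mem_coe, mem_sigma] at hq hq'
      obtain ⟨hd, hab⟩ := hq
      obtain ⟨hd', hab'⟩ := hq'
      have hd1 : 1 ≤ d := (mem_Icc.1 hd).1
      have hd1' : 1 ≤ d' := (mem_Icc.1 hd').1
      obtain ⟨_, _, _, hg, _⟩ := mem_cop (hlb d hd hab)
      obtain ⟨_, _, _, hg', _⟩ := mem_cop (hlb d' hd' hab')
      have heq' : ((x : ℤ) + a * d, (x : ℤ) + b * d) = ((x : ℤ) + a' * d', (x : ℤ) + b' * d') := heq
      simp only [Prod.mk.injEq] at heq'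
      have e1 : a * d = a' * d' := by omega
      have e2 : b * d = b' * d' := by omega
      have g1 : Int.gcd (a * d) (b * d) = d := by
        rw [Int.gcd_mul_right, hg]; simp
      have g2 : Int.gcd (a' * d') (b' * d') = d' := by
        rw [Int.gcd_mul_right, hg']; simp
      have hdd : d = d' := by rw [← g1, ← g2, e1, e2]
      subst hdd
      have hd0 : (d : ℤ) ≠ 0 := by omega
      have ha : a = a' := mul_right_cancel₀ hd0 e1
      have hb : b = b' := mul_right_cancel₀ hd0 e2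
      rw [ha, hb]
  omega

open Classical in
/-- all members through `x` -/
lemma through_split (F : Finset (Finset ℤ)) (x : ℤ) :
    F.card ≤ (F.filter (fun A => x ∉ A)).card + ((F.filter (fun A => x ∈ A ∧ A.card ≤ 2)).card +
      ((F.filter (fun A => x ∈ A ∧ ¬ IsAP A)).card +
        (F.filter (fun A => x ∈ A ∧ IsAP A ∧ 3 ≤ A.card)).card)) := by
  have h1 : F ⊆ F.filter (fun A => x ∉ A) ∪ (F.filter (fun A => x ∈ A ∧ A.card ≤ 2) ∪
      (F.filter (fun A => x ∈ A ∧ ¬ IsAP A) ∪ F.filter (fun A => x ∈ A ∧ IsAP A ∧ 3 ≤ A.card))) := by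
    intro A hA
    simp only [mem_union, mem_filter]
    by_cases h1 : x ∈ A
    · by_cases h2 : A.card ≤ 2
      · right; left; exact ⟨hA, h1, h2⟩
      · by_cases h3 : IsAP A
        · right; right; right; exact ⟨hA, h1, h3, by omega⟩
        · right; right; left; exact ⟨hA, h1, h3⟩
    · left; exact ⟨hA, h1⟩
  refine (card_le_card h1).trans ((card_union_le _ _).trans ?_)
  refine Nat.add_le_add_left ((card_union_le _ _).trans ?_) _
  exact Nat.add_le_add_left (card_union_le _ _) _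

open Classical in
/-- the pairs outside `K` are those outside `K` inside and outside the progressions -/
lemma pairs_split (N : ℕ) (F : Finset (Finset ℤ)) (x : ℤ) (K : ℤ × ℤ → Prop) :
    ((prs N x).filter (fun p => ¬ K p ∧ ¬ Oml F x p)).card +
      ((prs N x).filter (fun p => Oml F x p ∧ ¬ K p)).card + ((prs N x).filter K).card =
      (prs N x).card := by
  rw [← card_filter_add_card_filter_not (s := prs N x) K,
    ← card_filter_add_card_filter_not (s := (prs N x).filter (fun p => ¬ K p)) (fun p => Oml F x p),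
    filter_filter, filter_filter]
  have e : (prs N x).filter (fun p => Oml F x p ∧ ¬ K p) =
      (prs N x).filter (fun p => ¬ K p ∧ Oml F x p) := by
    ext p; simp only [mem_filter]; tauto
  rw [e]
  omega

/-! ### one or two members missing `x` -/

lemma exc_spec {N : ℕ} {F : Finset (Finset ℤ)} (hF : Admissible N F) {x : ℤ} {d : ℕ}
    (hd : d ∈ excN N F x) {B : Finset ℤ} (hB : B ∈ F) (hxB : x ∉ B) :
    (x - d ∈ B ∨ x - 2 * d ∈ B) ∧ (x + d ∈ B ∨ x + 2 * d ∈ B) ∧
      (x - d ∉ B ∨ x - 2 * d ∉ B) ∧ (x + d ∉ B ∨ x + 2 * d ∉ B) := by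
  rw [excN, mem_filter, mem_Icc] at hd
  obtain ⟨hd1, h22, h20, h02⟩ := hd
  have hxs : ∀ i j : ℕ, x ∈ seg x d i j := fun i j =>
    mem_seg.2 ⟨0, by omega, by omega, by ring⟩
  have hne : ∀ i j : ℕ, seg x d i j ≠ B := by
    intro i j h
    exact hxB (h ▸ hxs i j)
  have hleft : x - d ∈ B ∨ x - 2 * d ∈ B := by
    obtain ⟨t, ht⟩ := (hF.2 _ h20 _ hB (hne 2 0)).nonempty
    rw [mem_inter, mem_seg] at ht
    obtain ⟨⟨k, hk1, hk2, rfl⟩, htB⟩ := ht
    have hk : k = 0 ∨ k = -1 ∨ k = -2 := by omega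
    rcases hk with rfl | rfl | rfl
    · exact absurd (by simpa using htB) hxB
    · left
      have e : x + -1 * (d : ℤ) = x - d := by ring
      rwa [e] at htB
    · right
      have e : x + -2 * (d : ℤ) = x - 2 * d := by ring
      rwa [e] at htB
  have hright : x + d ∈ B ∨ x + 2 * d ∈ B := by
    obtain ⟨t, ht⟩ := (hF.2 _ h02 _ hB (hne 0 2)).nonempty
    rw [mem_inter, mem_seg] at ht
    obtain ⟨⟨k, hk1, hk2, rfl⟩, htB⟩ := ht
    have hk : k = 0 ∨ k = 1 ∨ k = 2 := by omega
    rcases hk with rfl | rfl | rfl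
    · exact absurd (by simpa using htB) hxB
    · left
      have e : x + 1 * (d : ℤ) = x + d := by ring
      rwa [e] at htB
    · right
      exact htB
  have hI := hF.2 _ h22 _ hB (hne 2 2)
  have hm : ∀ k : ℤ, -2 ≤ k → k ≤ 2 → x + k * d ∈ B → x + k * d ∈ seg x d 2 2 ∩ B := by
    intro k h1 h2 h3
    exact mem_inter.2 ⟨mem_seg.2 ⟨k, by omega, by omega, rfl⟩, h3⟩
  have hd0 : (1 : ℤ) ≤ d := by omega
  refine ⟨hleft, hright, ?_, ?_⟩
  · by_contra hcon
    push Not at hcon
    have h1 := hm (-1) (by norm_num) (by norm_num) (by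
      have e : x + -1 * (d : ℤ) = x - d := by ring
      rw [e]; exact hcon.1)
    have h2 := hm (-2) (by norm_num) (by norm_num) (by
      have e : x + -2 * (d : ℤ) = x - 2 * d := by ring
      rw [e]; exact hcon.2)
    obtain ⟨k, hk1, hk2, hkB⟩ : ∃ k : ℤ, 1 ≤ k ∧ k ≤ 2 ∧ x + k * d ∈ B := by
      rcases hright with h | h
      · exact ⟨1, le_refl _, by norm_num, by rw [one_mul]; exact h⟩
      · exact ⟨2, by norm_num, le_refl _, h⟩
    have h3 := hm k (by omega) hk2 hkB
    have hkd : 1 * (d : ℤ) ≤ k * d := mul_le_mul_of_nonneg_right hk1 (by omega)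
    have h4 : x ∈ seg x d 2 2 ∩ B := by
      apply hI.mem_of_gcd h1 h2 h3
      · have e1 : x + -2 * (d : ℤ) - (x + -1 * d) = -d := by ring
        have e2 : x + k * (d : ℤ) - (x + -1 * d) = (k + 1) * d := by ring
        have e3 : x - (x + -1 * (d : ℤ)) = d := by ring
        rw [e1, e3]
        exact dvd_trans (gcd_dvd_left _ _) (by simp)
      · apply le_trans (min_le_right _ _)
        apply le_trans (min_le_left _ _)
        omega
      · apply le_trans _ (le_max_right _ _)
        apply le_trans _ (le_max_right _ _)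
        omega
    exact hxB (mem_inter.1 h4).2
  · by_contra hcon
    push Not at hcon
    have h1 := hm 1 (by norm_num) (by norm_num) (by rw [one_mul]; exact hcon.1)
    have h2 := hm 2 (by norm_num) (by norm_num) hcon.2
    obtain ⟨k, hk1, hk2, hkB⟩ : ∃ k : ℤ, -2 ≤ k ∧ k ≤ -1 ∧ x + k * d ∈ B := by
      rcases hleft with h | h
      · exact ⟨-1, by norm_num, le_refl _, by
          have e : x + -1 * (d : ℤ) = x - d := by ring
          rw [e]; exact h⟩
      · exact ⟨-2, le_refl _, by norm_num, by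
          have e : x + -2 * (d : ℤ) = x - 2 * d := by ring
          rw [e]; exact h⟩
    have h3 := hm k hk1 (by omega) hkB
    have hkd : k * (d : ℤ) ≤ (-1) * d := mul_le_mul_of_nonneg_right hk2 (by omega)
    have h4 : x ∈ seg x d 2 2 ∩ B := by
      apply hI.mem_of_gcd h1 h2 h3
      · have e1 : x + 2 * (d : ℤ) - (x + 1 * d) = d := by ring
        have e3 : x - (x + 1 * (d : ℤ)) = -d := by ring
        rw [e1, e3]
        exact dvd_trans (gcd_dvd_left _ _) (by simp)
      · apply le_trans (min_le_right _ _)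
        apply le_trans (min_le_right _ _)
        omega
      · apply le_trans _ (le_max_right _ _)
        apply le_trans _ (le_max_left _ _)
        omega
    exact hxB (mem_inter.1 h4).2

/-- the number of scales with an excess is at most the number of elements missed by any one member
missing `x` -/
lemma exc_le {N : ℕ} {F : Finset (Finset ℤ)} (hF : Admissible N F) {x : ℤ}
    {B : Finset ℤ} (hB : B ∈ F) (hxB : x ∉ B) :
    (excN N F x).card ≤ (((Icc (1 : ℤ) N).erase x) \ B).card := by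
  classical
  have hmem : ∀ d ∈ excN N F x, 1 ≤ d ∧ x - 2 * d ∈ Icc (1 : ℤ) N ∧ x + 2 * d ∈ Icc (1 : ℤ) N := by
    intro d hd
    rw [excN, mem_filter, mem_Icc] at hd
    obtain ⟨hd1, h22, _, _⟩ := hd
    have h4 : (x : ℤ) + (-2) * d ∈ seg x d 2 2 := mem_seg.2 ⟨-2, by norm_num, by norm_num, rfl⟩
    have h5 : (x : ℤ) + 2 * d ∈ seg x d 2 2 := mem_seg.2 ⟨2, by norm_num, by norm_num, rfl⟩
    have h6 := hF.1 _ h22 h4
    have h7 := hF.1 _ h22 h5
    have e : x + -2 * (d : ℤ) = x - 2 * d := by ring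
    rw [e] at h6
    exact ⟨hd1.1, h6, h7⟩
  -- the map
  let f : ℕ × Bool → ℤ × Bool := fun p =>
    if p.2 then (if x - p.1 ∈ B then (x - 2 * p.1, true) else (x - p.1, false))
    else (if x + p.1 ∈ B then (x + 2 * p.1, true) else (x + p.1, false))
  have hcard : ((excN N F x) ×ˢ (univ : Finset Bool)).card ≤
      ((((Icc (1 : ℤ) N).erase x) \ B) ×ˢ (univ : Finset Bool)).card := by
    apply card_le_card_of_injOn f
    · rintro ⟨d, s⟩ hp
      rw [mem_coe, mem_product] at hp
      have hd := hp.1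
      simp only at hd
      obtain ⟨h1, h2, h3⟩ := hmem d hd
      obtain ⟨_, _, h4, h5⟩ := exc_spec hF hd hB hxB
      rw [mem_Icc] at h2 h3
      rw [mem_coe, mem_product]
      refine ⟨?_, mem_univ _⟩
      rw [mem_sdiff, mem_erase, mem_Icc]
      cases s
      · simp only [f, Bool.false_eq_true, if_false]
        split_ifs with h6
        · exact ⟨⟨by dsimp only; omega, by dsimp only; omega, by dsimp only; omega⟩,
            h5.resolve_left (not_not.2 h6)⟩
        · exact ⟨⟨by dsimp only; omega, by dsimp only; omega, by dsimp only; omega⟩, h6⟩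
      · simp only [f, if_true]
        split_ifs with h6
        · exact ⟨⟨by dsimp only; omega, by dsimp only; omega, by dsimp only; omega⟩,
            h4.resolve_left (not_not.2 h6)⟩
        · exact ⟨⟨by dsimp only; omega, by dsimp only; omega, by dsimp only; omega⟩, h6⟩
    · rintro ⟨d, s⟩ hp ⟨d', s'⟩ hp' heq
      rw [mem_coe, mem_product] at hp hp'
      have hd := (hmem d hp.1).1
      have hd' := (hmem d' hp'.1).1
      cases s <;> cases s' <;> simp only [f, Bool.false_eq_true, if_false, if_true] at heq <;>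
        split_ifs at heq <;> simp only [Prod.mk.injEq, Bool.false_eq_true, Bool.true_eq_false,
          and_false, and_true] at heq ⊢ <;> omega
  rw [card_product, card_product] at hcard
  have : (univ : Finset Bool).card = 2 := rfl
  rw [this] at hcard
  omega

open Classical in
/-- the bound when one or two members miss `x` -/
theorem two_bound {N : ℕ} {F : Finset (Finset ℤ)} (hF : Admissible N F) {x : ℤ}
    (hx : x ∈ Icc (1 : ℤ) N) (h1 : 1 ≤ (F.filter (fun A => x ∉ A)).card)
    (h2 : (F.filter (fun A => x ∉ A)).card ≤ 2) : F.card ≤ N.choose 2 + 1 := by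
  obtain ⟨B, hB⟩ := card_pos.1 h1
  have hB' := hB
  rw [mem_filter] at hB'
  have hsm := small_count hF hx ⟨B, hB'.1, hB'.2⟩
  have hna := nonap_count hF (x := x) (fun _ => False) (by
    intro A _ hxA hAP
    obtain ⟨y, z, h3, h4⟩ := exists_own hxA hAP
    exact ⟨(y, z), h3, h4, fun h => h⟩)
  have hap := ap_count hF (x := x) (fun _ => False) (fun d => cop (RR N F x d))
    (fun d _ => Subset.refl _) (fun d _ => card_le_cop' _ (fun p hp => (mem_filter.1 hp).2.1))
    (fun _ _ _ _ h => h)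
  have hsp := through_split F x
  have hps := pairs_split N F x (fun _ => False)
  have hprs := card_prs hx
  have hexc := exc_le hF hB'.1 hB'.2
  have hUB : ((Icc (1 : ℤ) N).erase x) \ B ⊆ Un N F x := by
    intro t ht
    rw [mem_sdiff] at ht
    rw [Un, mem_filter]
    exact ⟨ht.1, B, hB'.1, hB'.2, ht.2⟩
  have hch : N.choose 2 = (N - 1).choose 2 + (N - 1) := by
    rw [mem_Icc] at hx
    obtain ⟨n, rfl⟩ : ∃ n, N = n + 1 := ⟨N - 1, by omega⟩
    rw [Nat.choose_succ_succ' n 1]
    simp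
    omega
  have hU := card_le_card hUB
  by_cases hone : (F.filter (fun A => x ∉ A)).card ≤ 1
  · omega
  · -- two members
    have htwo : (F.filter (fun A => x ∉ A)).card = 2 := by omega
    obtain ⟨B1, B2, hne, hpair⟩ := card_eq_two.1 htwo
    have hB1 : B1 ∈ F.filter (fun A => x ∉ A) := by rw [hpair]; simp
    have hB2 : B2 ∈ F.filter (fun A => x ∉ A) := by rw [hpair]; simp
    rw [mem_filter] at hB1 hB2
    -- one of the two complements is a proper subset of `Un`
    have key : ∃ B0 ∈ F, x ∉ B0 ∧ (((Icc (1 : ℤ) N).erase x) \ B0).card + 1 ≤ (Un N F x).card := by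
      have hsubU : ∀ C ∈ F, x ∉ C → ((Icc (1 : ℤ) N).erase x) \ C ⊆ Un N F x := by
        intro C hC hxC t ht
        rw [mem_sdiff] at ht
        rw [Un, mem_filter]
        exact ⟨ht.1, C, hC, hxC, ht.2⟩
      have hstep : ∀ C ∈ F, x ∉ C → ∀ C' ∈ F, x ∉ C' → ¬ C ⊆ C' →
          (((Icc (1 : ℤ) N).erase x) \ C).card + 1 ≤ (Un N F x).card := by
        intro C hC hxC C' hC' hxC' hns
        obtain ⟨t, htC, htC'⟩ := not_subset.1 hns
        apply Nat.succ_le_of_lt
        apply card_lt_card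
        rw [ssubset_iff_of_subset (hsubU C hC hxC)]
        refine ⟨t, ?_, ?_⟩
        · rw [Un, mem_filter, mem_erase]
          refine ⟨⟨?_, hF.1 C hC htC⟩, C', hC', hxC', htC'⟩
          rintro rfl
          exact hxC htC
        · rw [mem_sdiff]
          exact fun h => h.2 htC
      by_cases h3 : B1 ⊆ B2
      · have h4 : ¬ B2 ⊆ B1 := fun h => hne (Subset.antisymm h3 h)
        exact ⟨B2, hB2.1, hB2.2, hstep B2 hB2.1 hB2.2 B1 hB1.1 hB1.2 h4⟩
      · exact ⟨B1, hB1.1, hB1.2, hstep B1 hB1.1 hB1.2 B2 hB2.1 hB2.2 h3⟩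
    obtain ⟨B0, hB0, hxB0, h3⟩ := key
    have h4 := exc_le hF hB0 hxB0
    omega

end Pool.Agent.APHM
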