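import Pool.Agent.APHM.Near
import Pool.Agent.APLarge.Final

/-!
Families without a common element, for all large `N`.
-/

set_option autoImplicit false

namespace Pool.Agent.APHM

open Finset Pool.Agent.APInt Pool.Agent.APLarge

open Classical in
/-- three members missing `x`, to the right of `x` -/
lemma left_case' {N : ℕ} {F : Finset (Finset ℤ)} (hF : Admissible N F) {x : ℤ}
    (hx : x ∈ Icc (1 : ℤ) N) (hN : 2000 ≤ N)
    (hsmall : ∀ B ∈ F, x ∉ B → 250 * (((Icc (1 : ℤ) N).erase x) \ B).card < N)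
    (h3 : 3 ≤ (F.filter (fun A => x ∉ A)).card) (hxs : 125 * x ≤ 250 + N) :
    F.card ≤ N.choose 2 + 1 := by
  have hx' := mem_Icc.1 hx
  apply near_bound' (L := N / 100) (x := x) _ h3
  refine ⟨hF, hx'.1, by omega, by omega, ?_⟩
  intro B hB hxB t ht
  rw [mem_Icc] at ht
  obtain ⟨B', hB', hne'⟩ : ∃ B' ∈ F.filter (fun A => x ∉ A), B' ≠ B :=
    exists_mem_ne (by omega) B
  rw [mem_filter] at hB'
  obtain ⟨a, b, h3, h4, h5, h6, h7⟩ := Final.two_miss hF hx hN hsmall hB hB'.1 hne'.symm hxB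
    hB'.2
  have h8 : t ∈ B ∩ B' := by
    rw [h3, mem_Icc]
    omega
  exact (mem_inter.1 h8).1

open Classical in
lemma card_filter_mirF {N : ℕ} (F : Finset (Finset ℤ)) (x : ℤ) :
    ((mirF N F).filter (fun A => (N : ℤ) + 1 - x ∉ A)).card = (F.filter (fun A => x ∉ A)).card := by
  have h : (mirF N F).filter (fun A => (N : ℤ) + 1 - x ∉ A) =
      (F.filter (fun A => x ∉ A)).image (mir N) := by
    ext A
    rw [mem_filter, mem_mirF, mem_image]
    constructor
    · rintro ⟨h1, h2⟩
      refine ⟨mir N A, ?_, mir_mir N A⟩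
      rw [mem_filter, mem_mir]
      exact ⟨h1, h2⟩
    · rintro ⟨B, hB, rfl⟩
      rw [mem_filter] at hB
      rw [mir_mir, mem_mir]
      refine ⟨hB.1, ?_⟩
      have e : (N : ℤ) + 1 - (N + 1 - x) = x := by ring
      rw [e]
      exact hB.2
  rw [h, card_image_of_injective _ (Mirror.mir_injective N)]

open Classical in
/-- three large members missing `x` -/
lemma three_case {N : ℕ} {F : Finset (Finset ℤ)} (hF : Admissible N F) {x : ℤ}
    (hx : x ∈ Icc (1 : ℤ) N) (hN : 2000 ≤ N)
    (hsmall : ∀ B ∈ F, x ∉ B → 250 * (((Icc (1 : ℤ) N).erase x) \ B).card < N)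
    (hthree : 3 ≤ (F.filter (fun A => x ∉ A)).card) : F.card ≤ N.choose 2 + 1 := by
  obtain ⟨B1, hB1⟩ := card_pos.1 (show 0 < (F.filter (fun A => x ∉ A)).card by omega)
  obtain ⟨B2, hB2, hne⟩ : ∃ B' ∈ F.filter (fun A => x ∉ A), B' ≠ B1 :=
    exists_mem_ne (by omega) B1
  rw [mem_filter] at hB1 hB2
  obtain ⟨a, b, h3, h4, h5, h6, h7⟩ := Final.two_miss hF hx hN hsmall hB1.1 hB2.1 hne.symm hB1.2
    hB2.2
  have hxI : x ∉ Icc a b := by
    rw [← h3, mem_inter]
    tauto
  rw [mem_Icc] at hxI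
  by_cases hxa : x < a
  · exact left_case' hF hx hN hsmall hthree (by omega)
  · have hxb : b < x := by omega
    rw [← card_mirF N F]
    rw [mem_Icc] at hx
    apply left_case' (x := N + 1 - x) (admissible_mir hF) (by rw [mem_Icc]; omega) hN
    · intro B hB hxB
      rw [mem_mirF] at hB
      rw [Final.card_sdiff_mir]
      apply hsmall _ hB
      rw [mem_mir]
      exact hxB
    · rw [card_filter_mirF]
      exact hthree
    · omega

/-- for all large `N` an admissible family without a common element has at most `C(N,2) + 1`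
members -/
theorem no_common_large : ∃ N0 : ℕ, ∀ N ≥ N0, ∀ F : Finset (Finset ℤ), Admissible N F →
    (∀ x : ℤ, ∃ A ∈ F, x ∉ A) → F.card ≤ N.choose 2 + 1 := by
  classical
  obtain ⟨N1, h1⟩ := card_ap
  obtain ⟨N2, h2⟩ := exists_center 1e-9 (by norm_num)
  obtain ⟨N3, h3⟩ := far_bound
  refine ⟨max (max N1 N2) (max N3 2000), ?_⟩
  intro N hN F hF hcom
  have hN1 : N1 ≤ N := le_trans (le_trans (le_max_left _ _) (le_max_left _ _)) hN
  have hN2 : N2 ≤ N := le_trans (le_trans (le_max_right _ _) (le_max_left _ _)) hN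
  have hN3 : N3 ≤ N := le_trans (le_trans (le_max_left _ _) (le_max_right _ _)) hN
  have hN4 : 2000 ≤ N := le_trans (le_trans (le_max_right _ _) (le_max_right _ _)) hN
  by_cases hsm : F.card ≤ N.choose 2
  · omega
  push Not at hsm
  have hc := h1 N hN1 F hF
  have hsplit : (F.filter (fun A => IsAP A)).card + (F.filter (fun A => ¬ IsAP A)).card = F.card :=
    card_filter_add_card_filter_not _
  have hch : (N.choose 2 : ℝ) = N * (N - 1) / 2 := by
    rw [Nat.cast_choose_two]
  have hN4' : (2000 : ℝ) ≤ N := by exact_mod_cast hN4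
  have hNA : 0.07 * (N : ℝ) ^ 2 ≤ ((F.filter (fun A => ¬ IsAP A)).card : ℝ) := by
    have h4 : (N.choose 2 : ℝ) < (F.card : ℝ) := by exact_mod_cast hsm
    have h5 : ((F.filter (fun A => IsAP A)).card : ℝ) +
        ((F.filter (fun A => ¬ IsAP A)).card : ℝ) = F.card := by exact_mod_cast hsplit
    rw [hch] at h4
    nlinarith
  obtain ⟨x, hx, hxe⟩ := h2 N hN2 F hF hNA
  have hfar := h3 N hN3 F hF x hx hxe
  have hsmall : ∀ B ∈ F, x ∉ B → 250 * (((Icc (1 : ℤ) N).erase x) \ B).card < N := by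
    intro B hB hxB
    by_contra hcon
    push Not at hcon
    have h6 := hfar ⟨B, hB, hxB, by
      rw [div_le_iff₀ (by norm_num)]
      have : (N : ℝ) ≤ ((250 * (((Icc (1 : ℤ) N).erase x) \ B).card : ℕ) : ℝ) := by
        exact_mod_cast hcon
      push_cast at this
      linarith⟩
    omega
  obtain ⟨B, hB, hxB⟩ := hcom x
  have hpos : 1 ≤ (F.filter (fun A => x ∉ A)).card :=
    card_pos.2 ⟨B, mem_filter.2 ⟨hB, hxB⟩⟩
  by_cases h3' : (F.filter (fun A => x ∉ A)).card ≤ 2
  · exact two_bound hF hx hpos h3'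
  · exact three_case hF hx hN4 hsmall (by omega)

/-! ### the example -/

open Classical in
/-- all sets `{1, y}`, all sets `{1, y, z}`, and the set `{2, …, N}` -/
noncomputable def exFam (N : ℕ) : Finset (Finset ℤ) :=
  insert (Icc (2 : ℤ) N) (((Icc (2 : ℤ) N).image (fun y => {1, y})) ∪
    ((prs N 1).image (fun p => {1, p.1, p.2})))

lemma isAP_single (a : ℤ) : IsAP {a} := ⟨a, 1, 1, le_refl _, le_refl _, by simp⟩

lemma isAP_pair {a b : ℤ} (h : a < b) : IsAP {a, b} := by
  refine ⟨a, b - a, 2, by omega, by norm_num, ?_⟩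
  ext t
  simp only [mem_insert, mem_singleton, mem_image, mem_range]
  constructor
  · rintro (rfl | rfl)
    · exact ⟨0, by norm_num, by simp⟩
    · exact ⟨1, by norm_num, by push_cast; ring⟩
  · rintro ⟨i, hi, rfl⟩
    interval_cases i
    · left; simp
    · right; push_cast; ring

lemma isAP_of_card {S : Finset ℤ} (h0 : S.Nonempty) (h2 : S.card ≤ 2) : IsAP S := by
  have h1 := card_pos.2 h0
  have : S.card = 1 ∨ S.card = 2 := by omega
  rcases this with h | h
  · obtain ⟨a, rfl⟩ := card_eq_one.1 h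
    exact isAP_single a
  · obtain ⟨a, b, hab, rfl⟩ := card_eq_two.1 h
    rcases lt_or_gt_of_ne hab with h3 | h3
    · exact isAP_pair h3
    · rw [pair_comm]; exact isAP_pair h3

/-- the members through `1` of the example -/
lemma mem_ex {N : ℕ} {A : Finset ℤ} (hA : A ∈ exFam N) :
    A = Icc (2 : ℤ) N ∨ ∃ y z : ℤ, y ∈ Icc (2 : ℤ) N ∧ z ∈ Icc (2 : ℤ) N ∧ A = {1, y, z} := by
  classical
  rw [exFam, mem_insert, mem_union, mem_image, mem_image] at hA
  rcases hA with h | ⟨y, hy, rfl⟩ | ⟨p, hp, rfl⟩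
  · exact Or.inl h
  · right
    exact ⟨y, y, hy, hy, by simp⟩
  · right
    rw [mem_prs] at hp
    exact ⟨p.1, p.2, by rw [mem_Icc]; omega, by rw [mem_Icc]; omega, rfl⟩

lemma ex_admissible (N : ℕ) (hN : 3 ≤ N) : Admissible N (exFam N) := by
  classical
  have h1 : ∀ y z : ℤ, y ∈ Icc (2 : ℤ) N → z ∈ Icc (2 : ℤ) N →
      ({1, y, z} : Finset ℤ) ∩ Icc (2 : ℤ) N = {y, z} := by
    intro y z hy hz
    ext t
    simp only [mem_inter, mem_insert, mem_singleton]
    constructor
    · rintro ⟨rfl | rfl | rfl, h⟩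
      · rw [mem_Icc] at h; omega
      · left; rfl
      · right; rfl
    · rintro (rfl | rfl)
      · exact ⟨Or.inr (Or.inl rfl), hy⟩
      · exact ⟨Or.inr (Or.inr rfl), hz⟩
  have h2 : ∀ y z : ℤ, IsAP {y, z} := by
    intro y z
    apply isAP_of_card ⟨y, by simp⟩ card_le_two
  constructor
  · intro A hA
    rcases mem_ex hA with rfl | ⟨y, z, hy, hz, rfl⟩
    · exact Icc_subset_Icc (by norm_num) (le_refl _)
    · intro t ht
      rw [mem_Icc] at hy hz ⊢
      simp only [mem_insert, mem_singleton] at ht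
      rcases ht with rfl | rfl | rfl <;> omega
  · intro A hA B hB hne
    rcases mem_ex hA with rfl | ⟨y, z, hy, hz, rfl⟩
    · rcases mem_ex hB with rfl | ⟨y', z', hy', hz', rfl⟩
      · exact absurd rfl hne
      · rw [inter_comm, h1 y' z' hy' hz']
        exact h2 y' z'
    · rcases mem_ex hB with rfl | ⟨y', z', hy', hz', rfl⟩
      · rw [h1 y z hy hz]
        exact h2 y z
      · apply isAP_of_card ⟨1, by simp⟩
        by_contra hcon
        push Not at hcon
        have e1 : ({1, y, z} ∩ {1, y', z'} : Finset ℤ) = {1, y, z} := by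
          apply eq_of_subset_of_card_le inter_subset_left
          exact le_trans card_le_three (by omega)
        have e2 : ({1, y, z} ∩ {1, y', z'} : Finset ℤ) = {1, y', z'} := by
          apply eq_of_subset_of_card_le inter_subset_right
          exact le_trans card_le_three (by omega)
        exact hne (e1.symm.trans e2)

lemma card_ex (N : ℕ) (hN : 3 ≤ N) : (exFam N).card = N.choose 2 + 1 := by
  classical
  have hinj1 : Set.InjOn (fun y : ℤ => ({1, y} : Finset ℤ)) (Icc (2 : ℤ) N : Finset ℤ) := by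
    intro y hy y' hy' h
    rw [mem_coe, mem_Icc] at hy hy'
    have h1 : y ∈ ({1, y'} : Finset ℤ) := by
      have h' : ({1, y} : Finset ℤ) = {1, y'} := h
      rw [← h']; simp
    simp only [mem_insert, mem_singleton] at h1
    omega
  have hinj2 : Set.InjOn (fun p : ℤ × ℤ => ({1, p.1, p.2} : Finset ℤ)) (prs N 1 : Finset (ℤ × ℤ)) := by
    rintro ⟨y, z⟩ hp ⟨y', z'⟩ hp' h
    rw [mem_coe, mem_prs] at hp hp'
    simp only at hp hp'
    have h' : ({1, y, z} : Finset ℤ) = {1, y', z'} := h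
    have h1 : y ∈ ({1, y', z'} : Finset ℤ) := by rw [← h']; simp
    have h2 : z ∈ ({1, y', z'} : Finset ℤ) := by rw [← h']; simp
    simp only [mem_insert, mem_singleton] at h1 h2
    rw [Prod.mk.injEq]
    omega
  have hc1 : ((Icc (2 : ℤ) N).image (fun y => ({1, y} : Finset ℤ))).card = N - 1 := by
    rw [card_image_of_injOn hinj1, Int.card_Icc]
    omega
  have hc2 : ((prs N 1).image (fun p => ({1, p.1, p.2} : Finset ℤ))).card = (N - 1).choose 2 := by
    rw [card_image_of_injOn hinj2, card_prs (by rw [mem_Icc]; omega)]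
  have hdisj : Disjoint ((Icc (2 : ℤ) N).image (fun y => ({1, y} : Finset ℤ)))
      ((prs N 1).image (fun p => ({1, p.1, p.2} : Finset ℤ))) := by
    rw [disjoint_left]
    intro A hA hA'
    rw [mem_image] at hA hA'
    obtain ⟨y, hy, rfl⟩ := hA
    obtain ⟨⟨u, v⟩, hp, h⟩ := hA'
    rw [mem_prs] at hp
    simp only at hp h
    have h1 : u ∈ ({1, y} : Finset ℤ) := by rw [← h]; simp
    have h2 : v ∈ ({1, y} : Finset ℤ) := by rw [← h]; simp
    simp only [mem_insert, mem_singleton] at h1 h2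
    omega
  have hnot : Icc (2 : ℤ) N ∉ ((Icc (2 : ℤ) N).image (fun y => ({1, y} : Finset ℤ))) ∪
      ((prs N 1).image (fun p => ({1, p.1, p.2} : Finset ℤ))) := by
    intro h
    have h1 : (1 : ℤ) ∈ Icc (2 : ℤ) N := by
      rw [mem_union, mem_image, mem_image] at h
      rcases h with ⟨y, _, h⟩ | ⟨p, _, h⟩
      · rw [← h]; simp
      · rw [← h]; simp
    rw [mem_Icc] at h1
    omega
  rw [exFam, card_insert_of_notMem hnot, card_union_of_disjoint hdisj, hc1, hc2]
  have hch : N.choose 2 = (N - 1).choose 2 + (N - 1) := by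
    obtain ⟨n, rfl⟩ : ∃ n, N = n + 1 := ⟨N - 1, by omega⟩
    rw [Nat.choose_succ_succ' n 1]
    simp
    omega
  omega

lemma ex_no_common (N : ℕ) (hN : 3 ≤ N) : ∀ x : ℤ, ∃ A ∈ exFam N, x ∉ A := by
  classical
  intro x
  by_cases h1 : x = 1
  · refine ⟨Icc (2 : ℤ) N, by rw [exFam]; exact mem_insert_self _ _, ?_⟩
    rw [h1, mem_Icc]; omega
  · by_cases h2 : x = 2
    · refine ⟨{1, 3}, ?_, by rw [h2]; simp⟩
      rw [exFam, mem_insert, mem_union, mem_image]
      right; left
      exact ⟨3, by rw [mem_Icc]; omega, rfl⟩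
    · refine ⟨{1, 2}, ?_, by simp [h1, h2]⟩
      rw [exFam, mem_insert, mem_union, mem_image]
      right; left
      exact ⟨2, by rw [mem_Icc]; omega, rfl⟩

end Pool.Agent.APHM
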