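import Pool.Agent.APHM.Count
import Pool.Agent.APLarge.NearB
import Pool.Agent.APLarge.NearC

/-!
The exact count when `x` is near the left end and all members missing `x` contain the core.
-/

set_option autoImplicit false

namespace Pool.Agent.APHM

open Finset Pool.Agent.APInt Pool.Agent.APLarge Pool.Agent.APLarge.NearC

/-- the hypotheses of the near case -/
structure NearH (N L : ℕ) (F : Finset (Finset ℤ)) (x : ℤ) : Prop where
  adm : Admissible N F
  hx1 : 1 ≤ x
  hxL : x < L
  hLN : 100 * L ≤ N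
  core : ∀ B ∈ F, x ∉ B → Icc (L : ℤ) (N - L) ⊆ B

lemma NearH.memL {N L : ℕ} {F : Finset (Finset ℤ)} {x : ℤ} (h : NearH N L F x) {B : Finset ℤ}
    (hB : B ∈ F) (hxB : x ∉ B) : (L : ℤ) ∈ B :=
  h.core B hB hxB (by have := h.hx1; have := h.hxL; have := h.hLN; rw [mem_Icc]; omega)

lemma NearH.memN {N L : ℕ} {F : Finset (Finset ℤ)} {x : ℤ} (h : NearH N L F x) {B : Finset ℤ}
    (hB : B ∈ F) (hxB : x ∉ B) : (N : ℤ) - L ∈ B :=
  h.core B hB hxB (by have := h.hx1; have := h.hxL; have := h.hLN; rw [mem_Icc]; omega)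

lemma NearH.between {N L : ℕ} {F : Finset (Finset ℤ)} {x : ℤ} (h : NearH N L F x)
    {B B' : Finset ℤ} (hB : B ∈ F) (hB' : B' ∈ F) (hne : B ≠ B') (hxB : x ∉ B) (hxB' : x ∉ B')
    {s t w : ℤ} (hs : s ∈ B) (hs' : s ∈ B') (ht : t ∈ B) (ht' : t ∈ B') (hsw : s ≤ w)
    (hwt : w ≤ t) : w ∈ B :=
  NearB.mem_of_between h.adm (by have := h.hx1; have := h.hxL; omega) h.hLN h.core hB hB' hne hxB hxB'
    hs hs' ht ht' hsw hwt

/-- an element left of `x` is in at most one member missing `x` -/
lemma NearH.left_private {N L : ℕ} {F : Finset (Finset ℤ)} {x : ℤ} (h : NearH N L F x)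
    {B B' : Finset ℤ} (hB : B ∈ F) (hB' : B' ∈ F) (hne : B ≠ B') (hxB : x ∉ B) (hxB' : x ∉ B')
    {t : ℤ} (htx : t ≤ x) (ht : t ∈ B) : t ∉ B' := by
  intro ht'
  exact hxB (h.between hB hB' hne hxB hxB' ht ht' (h.memL hB hxB) (h.memL hB' hxB') htx
    (by have := h.hxL; omega))

open Classical in
/-- no excess when three members miss `x` -/
lemma NearH.exc_zero {N L : ℕ} {F : Finset (Finset ℤ)} {x : ℤ} (h : NearH N L F x)
    (h3 : 3 ≤ (F.filter (fun A => x ∉ A)).card) : (excN N F x).card = 0 := by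
  by_contra hcon
  obtain ⟨d, hd⟩ := card_pos.1 (Nat.pos_of_ne_zero hcon)
  have hd1 : 1 ≤ d := by
    rw [excN, mem_filter, mem_Icc] at hd
    exact hd.1.1
  -- the map to `{x - d, x - 2d}`
  have hmap : (F.filter (fun A => x ∉ A)).card ≤ ({x - d, x - 2 * d} : Finset ℤ).card := by
    apply card_le_card_of_injOn (fun B => if x - d ∈ B then x - d else x - 2 * d)
    · intro B _
      rw [mem_coe]
      dsimp only
      split_ifs <;> simp
    · intro B hB B' hB' heq
      by_contra hne
      rw [mem_coe, mem_filter] at hB hB'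
      have e1 := (exc_spec h.adm hd hB.1 hB.2).1
      have e2 := (exc_spec h.adm hd hB'.1 hB'.2).1
      dsimp only at heq
      split_ifs at heq with h4 h5 h5
      · exact h.left_private hB.1 hB'.1 hne hB.2 hB'.2 (by omega) h4 h5
      · omega
      · omega
      · exact h.left_private hB.1 hB'.1 hne hB.2 hB'.2 (by omega) (e1.resolve_left h4)
          (e2.resolve_left h5)
  have h4 : ({x - d, x - 2 * d} : Finset ℤ).card ≤ 2 := card_le_two
  omega

open Classical in
/-- progressions with at least three terms, near case -/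
lemma NearH.ap {N L : ℕ} {F : Finset (Finset ℤ)} {x : ℤ} (h : NearH N L F x) :
    (F.filter (fun A => x ∈ A ∧ IsAP A ∧ 3 ≤ A.card)).card ≤
      ((prs N x).filter (fun p => Oml F x p ∧ ¬ Kmix F x p)).card + (excN N F x).card := by
  obtain ⟨hF, hx1, hxL, hLN, hcore⟩ := h
  have hsub := hF.1
  have hbound : ∀ d ∈ Icc 1 N, ∀ p ∈ RR N F x d, (p.1 : ℤ) * d ≤ x - 1 ∧ (p.2 : ℤ) * d ≤ N - x := by
    intro d hd p hp
    simp only [RR, mem_filter, mem_product] at hp
    have h3 := hp.2.2
    have h4 : x + (-(p.1 : ℤ)) * d ∈ seg x d p.1 p.2 := mem_seg.2 ⟨-(p.1 : ℤ), by omega, by omega, rfl⟩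
    have h5 : x + (p.2 : ℤ) * d ∈ seg x d p.1 p.2 := mem_seg.2 ⟨p.2, by omega, by omega, rfl⟩
    have h6 := mem_Icc.1 (hsub _ h3 h4)
    have h7 := mem_Icc.1 (hsub _ h3 h5)
    have h8 : (-(p.1 : ℤ)) * d = -((p.1 : ℤ) * d) := by ring
    omega
  apply ap_count hF (x := x) (Kmix F x) (fun d => lab (RR N F x d) (((N : ℤ) - L - x) / d).toNat)
  · intro d _
    exact filter_subset _ _
  · intro d hd
    exact card_scale' (RR N F x d) (fun p hp => (mem_filter.1 hp).2.1) N L d x (mem_Icc.1 hd).1 hx1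
      hxL hLN (fun p hp => (hbound d hd p hp).1) (fun p hp => (hbound d hd p hp).2)
  · rintro d hd ⟨a, b⟩ hab'
    have hd' : 1 ≤ d ∧ d ≤ N := mem_Icc.1 hd
    rw [NearC.lab, mem_filter] at hab'
    obtain ⟨hab, hgood⟩ := hab'
    obtain ⟨h1, h2, h3, h4, ⟨i, j⟩, hp, h5, h6⟩ := mem_cop hab
    have hd0 : (0 : ℤ) < d := by omega
    rintro ⟨hk1, a', b', hk2, hk3, hk4, hk5⟩
    simp only at hk1 hk4 hk5
    have hlt : a * d < b * d := mul_lt_mul_of_pos_right h1 hd0
    have hxn : x ∉ Icc a' b' := by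
      rw [mem_Icc]; omega
    have hc := hcore _ hk3 hxn
    have hc1 := mem_Icc.1 (hc (mem_Icc.2 ⟨le_refl _, by omega⟩ : (L : ℤ) ∈ Icc (L : ℤ) (N - L)))
    have hc2 := mem_Icc.1 (hc (mem_Icc.2 ⟨by omega, le_refl _⟩ :
      (N : ℤ) - L ∈ Icc (L : ℤ) (N - L)))
    have ha0 : 0 < a := by
      by_contra hcon
      push Not at hcon
      have : a * d ≤ 0 * d := mul_le_mul_of_nonneg_right hcon hd0.le
      omega
    rcases hgood with hg | hg | hg
    · simp only at hg
      omega
    · simp only at hg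
      have hm0 : 0 ≤ ((N : ℤ) - L - x) / d := Int.ediv_nonneg (by omega) hd0.le
      have hg' : b ≤ ((N : ℤ) - L - x) / d := by
        have h7 : (((((N : ℤ) - L - x) / d).toNat : ℕ) : ℤ) = ((N : ℤ) - L - x) / d :=
          Int.toNat_of_nonneg hm0
        rw [← h7]; exact hg
      have h8 : b * d ≤ N - L - x := (Int.le_ediv_iff_mul_le hd0).1 hg'
      omega
    · simp only at hg
      subst hg
      have h9 : (a + 1) * (d : ℤ) = a * d + d := by ring
      have h10 : 1 * (d : ℤ) ≤ a * d := mul_le_mul_of_nonneg_right (by omega) hd0.le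
      omega

/-! ### members missing `x` -/

/-- `B` has a hole to the left of the core -/
def LG (L : ℕ) (B : Finset ℤ) : Prop := ∃ s w : ℤ, s ∈ B ∧ s < w ∧ w < L ∧ w ∉ B

/-- `B` has a hole to the right of the core -/
def RG (N L : ℕ) (B : Finset ℤ) : Prop := ∃ s w : ℤ, s ∈ B ∧ w < s ∧ (N : ℤ) - L < w ∧ w ∉ B

/-- members without holes are intervals to the right of `x` -/
lemma NearH.interval {N L : ℕ} {F : Finset (Finset ℤ)} {x : ℤ} (h : NearH N L F x) {B : Finset ℤ}
    (hB : B ∈ F) (hxB : x ∉ B) (hl : ¬ LG L B) (hr : ¬ RG N L B) :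
    ∃ a b : ℤ, x < a ∧ a ≤ L ∧ (N : ℤ) - L ≤ b ∧ b ≤ N ∧ B = Icc a b := by
  have hLB := h.memL hB hxB
  have hNB := h.memN hB hxB
  have hne : B.Nonempty := ⟨L, hLB⟩
  have hm1 := h.adm.1 B hB (B.min'_mem hne)
  have hm2 := h.adm.1 B hB (B.max'_mem hne)
  rw [mem_Icc] at hm1 hm2
  have hminL := B.min'_le _ hLB
  have hmaxN := B.le_max' _ hNB
  have hc := h.core B hB hxB
  unfold LG at hl
  unfold RG at hr
  push Not at hl hr
  have hlt : x < B.min' hne := by
    by_contra hcon
    push Not at hcon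
    rcases eq_or_lt_of_le hcon with h1 | h1
    · exact hxB (h1 ▸ B.min'_mem hne)
    · exact hxB (hl _ x (B.min'_mem hne) h1 h.hxL)
  refine ⟨B.min' hne, B.max' hne, hlt, hminL, hmaxN, hm2.2, ?_⟩
  ext t
  rw [mem_Icc]
  constructor
  · intro ht
    exact ⟨B.min'_le _ ht, B.le_max' _ ht⟩
  · rintro ⟨h1, h2⟩
    rcases eq_or_lt_of_le h1 with h3 | h3
    · rw [← h3]; exact B.min'_mem hne
    rcases eq_or_lt_of_le h2 with h4 | h4
    · rw [h4]; exact B.max'_mem hne
    by_cases h5 : t < L
    · exact hl _ t (B.min'_mem hne) h3 h5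
    by_cases h6 : (N : ℤ) - L < t
    · exact hr _ t (B.max'_mem hne) h4 h6
    exact hc (by rw [mem_Icc]; omega)

/-- a member with a hole on the left has a private element there -/
lemma NearH.lg_private {N L : ℕ} {F : Finset (Finset ℤ)} {x : ℤ} (h : NearH N L F x)
    {B : Finset ℤ} (hB : B ∈ F) (hxB : x ∉ B) (hl : LG L B) :
    ∃ t ∈ B, t < L ∧ ∀ B' ∈ F, x ∉ B' → B' ≠ B → t ∉ B' := by
  obtain ⟨s, w, h1, h2, h3, h4⟩ := hl
  refine ⟨s, h1, by omega, ?_⟩
  intro B' hB' hxB' hne' hs'
  exact h4 (h.between hB hB' hne'.symm hxB hxB' h1 hs' (h.memL hB hxB) (h.memL hB' hxB') h2.le h3.le)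

/-- a member with a hole on the right has a private element there -/
lemma NearH.rg_private {N L : ℕ} {F : Finset (Finset ℤ)} {x : ℤ} (h : NearH N L F x)
    {B : Finset ℤ} (hB : B ∈ F) (hxB : x ∉ B) (hl : RG N L B) :
    ∃ t ∈ B, (N : ℤ) - L < t ∧ ∀ B' ∈ F, x ∉ B' → B' ≠ B → t ∉ B' := by
  obtain ⟨s, w, h1, h2, h3, h4⟩ := hl
  refine ⟨s, h1, by omega, ?_⟩
  intro B' hB' hxB' hne' hs'
  exact h4 (h.between hB hB' hne'.symm hxB hxB' (h.memN hB hxB) (h.memN hB' hxB') h1 hs' h3.le h2.le)

open Classical in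
/-- private elements are missed together with `x` -/
lemma NearH.private_mem {N L : ℕ} {F : Finset (Finset ℤ)} {x : ℤ} (h : NearH N L F x)
    (h2 : 2 ≤ (F.filter (fun A => x ∉ A)).card) {B : Finset ℤ} (hB : B ∈ F) (hxB : x ∉ B) {t : ℤ}
    (ht : t ∈ B) (hp : ∀ B' ∈ F, x ∉ B' → B' ≠ B → t ∉ B') : t ∈ Un N F x := by
  obtain ⟨B', hB', hne⟩ : ∃ B' ∈ F.filter (fun A => x ∉ A), B' ≠ B := by
    apply exists_mem_ne (by omega) B
  rw [mem_filter] at hB'
  rw [Un, mem_filter, mem_erase]
  refine ⟨⟨?_, h.adm.1 B hB ht⟩, B', hB'.1, hB'.2, hp B' hB'.1 hB'.2 hne⟩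
  rintro rfl
  exact hxB ht

open Classical in
/-- the members missing `x` are at most the pairs in `Kmix`, the elements missed together with `x`,
and one more -/
lemma NearH.missing {N L : ℕ} {F : Finset (Finset ℤ)} {x : ℤ} (h : NearH N L F x)
    (h2 : 2 ≤ (F.filter (fun A => x ∉ A)).card) :
    (F.filter (fun A => x ∉ A)).card ≤
      ((prs N x).filter (fun p => Kmix F x p)).card + ((Un N F x).card + 1) := by
  have hx1 := h.hx1
  have hxL := h.hxL
  have hLN := h.hLN
  set T1 := F.filter (fun B => x ∉ B ∧ LG L B) with hT1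
  set T2 := F.filter (fun B => x ∉ B ∧ ¬ LG L B ∧ RG N L B) with hT2
  set T3 := F.filter (fun B => x ∉ B ∧ ∃ b : ℤ, (N : ℤ) - L ≤ b ∧ b ≤ N ∧ B = Icc (x + 1) b) with hT3
  set T4 := F.filter (fun B => x ∉ B ∧ ∃ a : ℤ, x + 1 < a ∧ a ≤ L ∧ B = Icc a (N : ℤ)) with hT4
  set T5 := F.filter (fun B => x ∉ B ∧ ∃ a b : ℤ, x + 1 < a ∧ a ≤ L ∧ (N : ℤ) - L ≤ b ∧ b < N ∧
    B = Icc a b) with hT5
  have hcover : (F.filter (fun A => x ∉ A)).card ≤ T5.card + ((T1.card + T2.card) +
      (T3.card + T4.card)) := by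
    have h1 : F.filter (fun A => x ∉ A) ⊆ T5 ∪ ((T1 ∪ T2) ∪ (T3 ∪ T4)) := by
      intro B hB
      rw [mem_filter] at hB
      obtain ⟨hBF, hxB⟩ := hB
      simp only [hT1, hT2, hT3, hT4, hT5, mem_union, mem_filter]
      by_cases hl : LG L B
      · right; left; left; exact ⟨hBF, hxB, hl⟩
      by_cases hr : RG N L B
      · right; left; right; exact ⟨hBF, hxB, hl, hr⟩
      obtain ⟨a, b, h3, h4, h5, h6, h7⟩ := h.interval hBF hxB hl hr
      by_cases h8 : a = x + 1
      · right; right; left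
        exact ⟨hBF, hxB, b, h5, h6, by rw [h7, h8]⟩
      by_cases h9 : b = N
      · right; right; right
        exact ⟨hBF, hxB, a, by omega, h4, by rw [h7, h9]⟩
      · left
        exact ⟨hBF, hxB, a, b, by omega, h4, h5, by omega, h7⟩
    refine (card_le_card h1).trans ((card_union_le _ _).trans ?_)
    refine Nat.add_le_add_left ((card_union_le _ _).trans ?_) _
    exact Nat.add_le_add (card_union_le _ _) (card_union_le _ _)
  -- intervals inside
  have h5 : T5.card ≤ ((prs N x).filter (fun p => Kmix F x p)).card := by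
    have hsub : T5 ⊆ ((prs N x).filter (fun p => Kmix F x p)).image
        (fun p : ℤ × ℤ => Icc (p.1 + 1) (p.2 - 1)) := by
      intro B hB
      rw [hT5, mem_filter] at hB
      obtain ⟨hBF, hxB, a, b, ha, haL, hbL, hb, rfl⟩ := hB
      rw [mem_image]
      refine ⟨(a - 1, b + 1), ?_, by simp⟩
      rw [mem_filter, mem_prs]
      refine ⟨⟨by dsimp only; omega, by dsimp only; omega, by dsimp only; omega⟩, ?_⟩
      refine ⟨by dsimp only; omega, a, b, by omega, hBF, by dsimp only; omega, by dsimp only; omega⟩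
    exact (card_le_card hsub).trans card_image_le
  -- private elements
  have hp1 : ∀ B ∈ T1, ∃ t ∈ B, t < L ∧ ∀ B' ∈ F, x ∉ B' → B' ≠ B → t ∉ B' := by
    intro B hB
    rw [hT1, mem_filter] at hB
    exact h.lg_private hB.1 hB.2.1 hB.2.2
  choose! f1 hf1 hf1L hf1p using hp1
  have hp2 : ∀ B ∈ T2, ∃ t ∈ B, (N : ℤ) - L < t ∧ ∀ B' ∈ F, x ∉ B' → B' ≠ B → t ∉ B' := by
    intro B hB
    rw [hT2, mem_filter] at hB
    exact h.rg_private hB.1 hB.2.1 hB.2.2.2
  choose! f2 hf2 hf2L hf2p using hp2
  have hU1 : ∀ B ∈ T1, f1 B ∈ Un N F x := by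
    intro B hB
    have hB' := hB
    rw [hT1, mem_filter] at hB'
    exact h.private_mem h2 hB'.1 hB'.2.1 (hf1 B hB) (hf1p B hB)
  have hU2 : ∀ B ∈ T2, f2 B ∈ Un N F x := by
    intro B hB
    have hB' := hB
    rw [hT2, mem_filter] at hB'
    exact h.private_mem h2 hB'.1 hB'.2.1 (hf2 B hB) (hf2p B hB)
  have hinj1 : Set.InjOn f1 (T1 : Set (Finset ℤ)) := by
    intro B hB B' hB' heq
    by_contra hne
    rw [mem_coe] at hB hB'
    have hB2' := hB'
    rw [hT1, mem_filter] at hB2'
    apply hf1p B hB B' hB2'.1 hB2'.2.1 (Ne.symm hne)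
    rw [heq]
    exact hf1 B' hB'
  have hinj2 : Set.InjOn f2 (T2 : Set (Finset ℤ)) := by
    intro B hB B' hB' heq
    by_contra hne
    rw [mem_coe] at hB hB'
    have hB2' := hB'
    rw [hT2, mem_filter] at hB2'
    apply hf2p B hB B' hB2'.1 hB2'.2.1 (Ne.symm hne)
    rw [heq]
    exact hf2 B' hB'
  -- the split of `Un` at a threshold
  have hsplitU : ∀ c : ℤ, ((Un N F x).filter (fun t => t < c)).card +
      ((Un N F x).filter (fun t => ¬ t < c)).card = (Un N F x).card := fun c =>
    card_filter_add_card_filter_not _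
  suffices hmain : (T1.card + T2.card) + (T3.card + T4.card) ≤ (Un N F x).card + 1 by omega
  -- endpoints
  have hU3 : ∀ b : ℤ, b < N → Icc (x + 1) b ∈ F → (N : ℤ) - L ≤ b → b + 1 ∈ Un N F x := by
    intro b hb hI hbL
    rw [Un, mem_filter, mem_erase, mem_Icc]
    refine ⟨⟨by omega, by omega, by omega⟩, _, hI, ?_, ?_⟩
    · rw [mem_Icc]; omega
    · rw [mem_Icc]; omega
  have hU4 : ∀ a : ℤ, x + 1 < a → Icc a (N : ℤ) ∈ F → a ≤ L → a - 1 ∈ Un N F x := by
    intro a ha hI haL
    rw [Un, mem_filter, mem_erase, mem_Icc]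
    refine ⟨⟨by omega, by omega, by omega⟩, _, hI, ?_, ?_⟩
    · rw [mem_Icc]; omega
    · rw [mem_Icc]; omega
  -- the images of the four classes
  set E3 : Finset ℤ := (Icc ((N : ℤ) - L) N).filter (fun b => Icc (x + 1) b ∈ F) with hE3
  set E4 : Finset ℤ := (Icc (x + 2) (L : ℤ)).filter (fun a => Icc a (N : ℤ) ∈ F) with hE4
  have hc3 : T3.card ≤ E3.card := by
    have : T3 ⊆ E3.image (fun b => Icc (x + 1) b) := by
      intro B hB
      rw [hT3, mem_filter] at hB
      obtain ⟨hBF, hxB, b, h6, h7, rfl⟩ := hB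
      rw [mem_image]
      exact ⟨b, by rw [hE3, mem_filter, mem_Icc]; exact ⟨⟨h6, h7⟩, hBF⟩, rfl⟩
    exact (card_le_card this).trans card_image_le
  have hc4 : T4.card ≤ E4.card := by
    have : T4 ⊆ E4.image (fun a => Icc a (N : ℤ)) := by
      intro B hB
      rw [hT4, mem_filter] at hB
      obtain ⟨hBF, hxB, a, h6, h7, rfl⟩ := hB
      rw [mem_image]
      exact ⟨a, by rw [hE4, mem_filter, mem_Icc]; exact ⟨⟨by omega, h7⟩, hBF⟩, rfl⟩
    exact (card_le_card this).trans card_image_le
  -- parts of Un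
  set U1 := (Un N F x).filter (fun t => t < x) with hU1d
  set U2 := (Un N F x).filter (fun t => x < t ∧ t < L) with hU2d
  set U3 := (Un N F x).filter (fun t => (N : ℤ) - L < t) with hU3d
  have hUsum : U1.card + U2.card + U3.card ≤ (Un N F x).card := by
    rw [← card_union_of_disjoint, ← card_union_of_disjoint]
    · apply card_le_card
      intro t ht
      simp only [hU1d, hU2d, hU3d, mem_union, mem_filter] at ht
      tauto
    · rw [disjoint_left]
      intro t ht ht'
      simp only [hU1d, hU2d, hU3d, mem_union, mem_filter] at ht ht'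
      omega
    · rw [disjoint_left]
      intro t ht ht'
      simp only [hU1d, hU2d, mem_filter] at ht ht'
      omega
  by_cases hne3 : E3.Nonempty
  · -- the largest right end
    set β := E3.max' hne3 with hβ
    have hβm : β ∈ E3 := E3.max'_mem hne3
    rw [hE3, mem_filter, mem_Icc] at hβm
    have hxβ : x ∉ Icc (x + 1) β := by rw [mem_Icc]; omega
    have g1 : T1.card ≤ U1.card := by
      apply card_le_card_of_injOn f1 _ hinj1
      intro B hB
      rw [mem_coe] at hB ⊢
      have hB' := hB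
      rw [hT1, mem_filter] at hB'
      rw [hU1d, mem_filter]
      refine ⟨hU1 B hB, ?_⟩
      by_contra hcon
      have hne : Icc (x + 1) β ≠ B := by
        rintro rfl
        obtain ⟨s, w, h6, h7, h8, h9⟩ := hB'.2.2
        rw [mem_Icc] at h6 h9
        omega
      have h10 : f1 B ≠ x := by
        intro h11
        apply hB'.2.1
        rw [← h11]
        exact hf1 B hB
      apply hf1p B hB _ hβm.2 hxβ hne
      have := hf1L B hB
      rw [mem_Icc]
      omega
    have g4 : E4.card ≤ U2.card := by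
      apply card_le_card_of_injOn (fun a => a - 1)
      · intro a ha
        rw [mem_coe, hE4, mem_filter, mem_Icc] at ha
        rw [mem_coe, hU2d, mem_filter]
        exact ⟨hU4 a (by omega) ha.2 ha.1.2, by dsimp only; omega, by dsimp only; omega⟩
      · intro a _ a' _ haa
        dsimp only at haa
        omega
    have g23 : T2.card + (E3.erase β).card ≤ U3.card := by
      have g2 : T2.card ≤ (U3.filter (fun t => β < t)).card := by
        apply card_le_card_of_injOn f2 _ hinj2
        intro B hB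
        rw [mem_coe] at hB ⊢
        have hB' := hB
        rw [hT2, mem_filter] at hB'
        rw [mem_filter, hU3d, mem_filter]
        refine ⟨⟨hU2 B hB, hf2L B hB⟩, ?_⟩
        by_contra hcon
        have hne : Icc (x + 1) β ≠ B := by
          rintro rfl
          obtain ⟨s, w, h6, h7, h8, h9⟩ := hB'.2.2.2
          rw [mem_Icc] at h6 h9
          omega
        apply hf2p B hB _ hβm.2 hxβ hne
        have := hf2L B hB
        rw [mem_Icc]
        omega
      have g3 : (E3.erase β).card ≤ (U3.filter (fun t => ¬ β < t)).card := by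
        apply card_le_card_of_injOn (fun b => b + 1)
        · intro b hb
          rw [mem_coe, mem_erase] at hb
          have hle := E3.le_max' b hb.2
          have hb2 := hb.2
          rw [hE3, mem_filter, mem_Icc] at hb2
          have hlt : b < β := lt_of_le_of_ne hle hb.1
          rw [mem_coe, mem_filter, hU3d, mem_filter]
          exact ⟨⟨hU3 b (by omega) hb2.2 hb2.1.1, by dsimp only; omega⟩, by dsimp only; omega⟩
        · intro a _ a' _ haa
          dsimp only at haa
          omega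
      have := card_filter_add_card_filter_not (s := U3) (fun t => β < t)
      omega
    have hβ' : β ∈ E3 := E3.max'_mem hne3
    rw [card_erase_of_mem hβ'] at g23
    have := card_pos.2 hne3
    omega
  · have hE30 : E3.card = 0 := by
      rw [not_nonempty_iff_eq_empty] at hne3
      rw [hne3]; rfl
    have g2 : T2.card ≤ U3.card := by
      apply card_le_card_of_injOn f2 _ hinj2
      intro B hB
      rw [mem_coe] at hB ⊢
      rw [hU3d, mem_filter]
      exact ⟨hU2 B hB, hf2L B hB⟩
    set U12 := (Un N F x).filter (fun t => t < (L : ℤ)) with hU12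
    have hUsum' : U12.card + U3.card ≤ (Un N F x).card := by
      rw [← card_union_of_disjoint]
      · apply card_le_card
        intro t ht
        simp only [hU12, hU3d, mem_union, mem_filter] at ht
        tauto
      · rw [disjoint_left]
        intro t ht ht'
        simp only [hU12, hU3d, mem_filter] at ht ht'
        omega
    by_cases hne4 : E4.Nonempty
    · set α := E4.min' hne4 with hα
      have hαm : α ∈ E4 := E4.min'_mem hne4
      rw [hE4, mem_filter, mem_Icc] at hαm
      have hxα : x ∉ Icc α (N : ℤ) := by rw [mem_Icc]; omega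
      have g1 : T1.card ≤ (U12.filter (fun t => t < α)).card := by
        apply card_le_card_of_injOn f1 _ hinj1
        intro B hB
        rw [mem_coe] at hB ⊢
        have hB' := hB
        rw [hT1, mem_filter] at hB'
        rw [mem_filter, hU12, mem_filter]
        refine ⟨⟨hU1 B hB, hf1L B hB⟩, ?_⟩
        by_contra hcon
        have hne : Icc α (N : ℤ) ≠ B := by
          rintro rfl
          obtain ⟨s, w, h6, h7, h8, h9⟩ := hB'.2.2
          rw [mem_Icc] at h6 h9
          omega
        apply hf1p B hB _ hαm.2 hxα hne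
        have := hf1L B hB
        rw [mem_Icc]
        omega
      have g4 : (E4.erase α).card ≤ (U12.filter (fun t => ¬ t < α)).card := by
        apply card_le_card_of_injOn (fun a => a - 1)
        · intro a ha
          rw [mem_coe, mem_erase] at ha
          have hle := E4.min'_le a ha.2
          have ha2 := ha.2
          rw [hE4, mem_filter, mem_Icc] at ha2
          have hlt : α < a := lt_of_le_of_ne hle (Ne.symm ha.1)
          rw [mem_coe, mem_filter, hU12, mem_filter]
          exact ⟨⟨hU4 a (by omega) ha2.2 ha2.1.2, by dsimp only; omega⟩, by dsimp only; omega⟩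
        · intro a _ a' _ haa
          dsimp only at haa
          omega
      have := card_filter_add_card_filter_not (s := U12) (fun t => t < α)
      have hα' : α ∈ E4 := E4.min'_mem hne4
      rw [card_erase_of_mem hα'] at g4
      have := card_pos.2 hne4
      omega
    · have hE40 : E4.card = 0 := by
        rw [not_nonempty_iff_eq_empty] at hne4
        rw [hne4]; rfl
      have g1 : T1.card ≤ U12.card := by
        apply card_le_card_of_injOn f1 _ hinj1
        intro B hB
        rw [mem_coe] at hB ⊢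
        rw [hU12, mem_filter]
        exact ⟨hU1 B hB, hf1L B hB⟩
      omega

open Classical in
/-- the bound in the near case -/
theorem near_bound' {N L : ℕ} {F : Finset (Finset ℤ)} {x : ℤ} (h : NearH N L F x)
    (h3 : 3 ≤ (F.filter (fun A => x ∉ A)).card) : F.card ≤ N.choose 2 + 1 := by
  have hx1 := h.hx1
  have hxL := h.hxL
  have hLN := h.hLN
  have hx : x ∈ Icc (1 : ℤ) N := by rw [mem_Icc]; omega
  obtain ⟨B, hB⟩ := card_pos.1 (show 0 < (F.filter (fun A => x ∉ A)).card by omega)
  rw [mem_filter] at hB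
  have hsm := small_count h.adm hx ⟨B, hB.1, hB.2⟩
  have hna := nonap_count h.adm (x := x) (Kmix F x) (by
    intro A hA hxA hAP
    obtain ⟨y, z, h4, h5, h6⟩ := lemma_M h.adm hx1 hxL hLN h.core hA hxA hAP
    exact ⟨(y, z), h4, h5, h6⟩)
  have hap := h.ap
  have hsp := through_split F x
  have hps : ((prs N x).filter (fun p => ¬ Kmix F x p ∧ ¬ Oml F x p)).card +
      ((prs N x).filter (fun p => Oml F x p ∧ ¬ Kmix F x p)).card +
      ((prs N x).filter (fun p => Kmix F x p)).card = (prs N x).card :=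
    pairs_split N F x (Kmix F x)
  have hprs := card_prs hx
  have hexc := h.exc_zero h3
  have hmis := h.missing (by omega)
  have hch : N.choose 2 = (N - 1).choose 2 + (N - 1) := by
    obtain ⟨n, rfl⟩ : ∃ n, N = n + 1 := ⟨N - 1, by omega⟩
    rw [Nat.choose_succ_succ' n 1]
    simp
    omega
  omega

end Pool.Agent.APHM
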