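import Pool.Agent.APLarge.NearC

/-!
The count of one scale: an excess needs the three progressions `(2,2)`, `(2,0)`, `(0,2)`.
-/

set_option autoImplicit false

namespace Pool.Agent.APHM

open Finset Pool.Agent.APInt Pool.Agent.APLarge Pool.Agent.APLarge.NearC

/-- the three small progressions of a scale -/
def Exc (R : Finset (ℕ × ℕ)) : Prop := (2, 2) ∈ R ∧ (2, 0) ∈ R ∧ (0, 2) ∈ R

open Classical in
/-- upper bound for `R`, with the missing small progressions -/
lemma card_R' (R : Finset (ℕ × ℕ)) (hR : ∀ p ∈ R, 2 ≤ p.1 + p.2)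
    (hI : 2 ≤ R.sup Prod.fst) (hJ : 2 ≤ R.sup Prod.snd) (hE : ¬ Exc R) :
    R.card + 1 ≤ (R.filter (fun p => 0 < p.1 ∧ 0 < p.2 ∧ Nat.Coprime p.1 p.2)).card +
      ((ncSet (R.sup Prod.fst) (R.sup Prod.snd)).card +
        ((R.sup Prod.fst - 1) + (R.sup Prod.snd - 1))) := by
  set I := R.sup Prod.fst with hIdef
  set J := R.sup Prod.snd with hJdef
  set C := R.filter (fun p => 0 < p.1 ∧ 0 < p.2 ∧ Nat.Coprime p.1 p.2) with hC
  have hle1 : ∀ p ∈ R, p.1 ≤ I := fun p hp => le_sup (f := Prod.fst) hp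
  have hle2 : ∀ p ∈ R, p.2 ≤ J := fun p hp => le_sup (f := Prod.snd) hp
  set A1 : Finset (ℕ × ℕ) := (Ioc 1 I).image (fun i => (i, 0)) with hA1
  set A2 : Finset (ℕ × ℕ) := (Ioc 1 J).image (fun j => (0, j)) with hA2
  have hA1c : A1.card ≤ I - 1 := le_trans card_image_le (by rw [Nat.card_Ioc])
  have hA2c : A2.card ≤ J - 1 := le_trans card_image_le (by rw [Nat.card_Ioc])
  set T := C ∪ (ncSet I J ∪ (A1 ∪ A2)) with hT
  have hsub : R ⊆ T := by
    rintro ⟨i, j⟩ hp
    have h1 := hle1 _ hp
    have h2 := hle2 _ hp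
    have h3 := hR _ hp
    simp only at h1 h2 h3
    simp only [hT, hC, ncSet, hA1, hA2, mem_union, mem_filter, mem_product, mem_image, mem_Ioc,
      Prod.mk.injEq]
    by_cases hi : 0 < i
    · by_cases hj : 0 < j
      · by_cases hc : Nat.Coprime i j
        · left; exact ⟨hp, hi, hj, hc⟩
        · right; left; exact ⟨⟨⟨hi, h1⟩, hj, h2⟩, hc⟩
      · right; right; left
        exact ⟨i, ⟨by omega, h1⟩, rfl, by omega⟩
    · right; right; right
      exact ⟨j, ⟨by omega, h2⟩, by omega, rfl⟩
  have hTc : T.card ≤ C.card + ((ncSet I J).card + ((I - 1) + (J - 1))) := by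
    refine le_trans (card_union_le _ _) ?_
    have := card_union_le (ncSet I J) (A1 ∪ A2)
    have := card_union_le A1 A2
    omega
  have hlt : R.card < T.card := by
    apply card_lt_card
    rw [ssubset_iff_of_subset hsub]
    unfold Exc at hE
    by_cases h22 : (2, 2) ∈ R
    · by_cases h20 : (2, 0) ∈ R
      · refine ⟨(0, 2), ?_, fun h => hE ⟨h22, h20, h⟩⟩
        rw [hT, mem_union, mem_union, mem_union]
        right; right; right
        rw [hA2, mem_image]
        exact ⟨2, mem_Ioc.2 ⟨by omega, hJ⟩, rfl⟩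
      · refine ⟨(2, 0), ?_, h20⟩
        rw [hT, mem_union, mem_union, mem_union]
        right; right; left
        rw [hA1, mem_image]
        exact ⟨2, mem_Ioc.2 ⟨by omega, hI⟩, rfl⟩
    · refine ⟨(2, 2), ?_, h22⟩
      simp only [hT, ncSet, mem_union, mem_filter, mem_product, mem_Ioc]
      right; left
      exact ⟨⟨⟨by norm_num, hI⟩, by norm_num, hJ⟩, by norm_num⟩
  omega

open Classical in
/-- the count for one scale in a star -/
lemma card_le_cop' (R : Finset (ℕ × ℕ)) (hR : ∀ p ∈ R, 2 ≤ p.1 + p.2) :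
    R.card ≤ (cop R).card + if Exc R then 1 else 0 := by
  by_cases hE : Exc R
  · rw [if_pos hE]
    have h := card_le_cop R hR
    rw [if_pos hE.1] at h
    exact h
  rw [if_neg hE]
  have h0 := card_R R hR
  rw [card_cop]
  have hpI := pred_le_cpSet (R.sup Prod.fst)
  have hpJ := pred_le_cpSet (R.sup Prod.snd)
  by_cases h2 : 2 ≤ R.sup Prod.fst ∧ 2 ≤ R.sup Prod.snd
  · have h3 := card_R' R hR h2.1 h2.2 hE
    have h4 := nc_ineq' _ _ h2.1 h2.2
    omega
  · have hnc : (ncSet (R.sup Prod.fst) (R.sup Prod.snd)).card = 0 := by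
      rw [card_eq_zero, eq_empty_iff_forall_notMem]
      intro p hp
      simp only [ncSet, mem_filter, mem_product, mem_Ioc] at hp
      obtain ⟨⟨⟨h4, h5⟩, h6, h7⟩, h8⟩ := hp
      apply h8
      have : p.1 = 1 ∨ p.2 = 1 := by omega
      rcases this with h9 | h9
      · rw [h9]; exact Nat.coprime_one_left _
      · rw [h9]; exact Nat.coprime_one_right _
    omega

open Classical in
/-- the count for one scale, near-star version -/
lemma card_scale' (R : Finset (ℕ × ℕ)) (hR : ∀ p ∈ R, 2 ≤ p.1 + p.2) (N L d : ℕ) (x : ℤ)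
    (hd : 1 ≤ d) (_hx1 : 1 ≤ x) (hxL : x < L) (hLN : 100 * L ≤ N)
    (h1 : ∀ p ∈ R, (p.1 : ℤ) * d ≤ x - 1) (h2 : ∀ p ∈ R, (p.2 : ℤ) * d ≤ N - x) :
    R.card ≤ (lab R (((N - L - x) / d).toNat)).card + if Exc R then 1 else 0 := by
  by_cases hne : R.Nonempty
  swap
  · rw [not_nonempty_iff_eq_empty] at hne
    rw [hne]; simp
  have hq := card_lab R (((N - L - x) / d).toNat)
  have hRR := card_R R hR
  have hRR' := card_R' R hR
  obtain ⟨p1, hp1, hI⟩ := exists_fst hne
  obtain ⟨p2, hp2, hJ⟩ := exists_snd hne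
  have hI' := h1 p1 hp1
  have hJ' := h2 p2 hp2
  rw [hI] at hI'
  rw [hJ] at hJ'
  set I := R.sup Prod.fst with hIdef
  set J := R.sup Prod.snd with hJdef
  set m : ℤ := (N - L - x) / d with hm
  have hdpos : (0 : ℤ) < d := by omega
  have hm0 : 0 ≤ m := Int.ediv_nonneg (by omega) hdpos.le
  obtain ⟨M, hM⟩ : ∃ M : ℕ, m = M := ⟨m.toNat, (Int.toNat_of_nonneg hm0).symm⟩
  rw [hM, Int.toNat_natCast] at hq ⊢
  have hm1 : (M : ℤ) * d ≤ N - L - x := by
    rw [← hM, hm]; exact Int.ediv_mul_le _ hdpos.ne'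
  have hm2 : N - L - x < ((M : ℤ) + 1) * d := by
    have := Int.lt_ediv_add_one_mul_self (N - L - x : ℤ) hdpos
    rw [← hm, hM] at this
    exact this
  have hpI := pred_le_cpSet I
  have hrJ := card_right J M
  by_cases hI2 : 2 ≤ I
  swap
  · -- no non-coprime pairs
    have hnc : (ncSet I J).card = 0 := by
      rw [card_eq_zero, eq_empty_iff_forall_notMem]
      intro p hp
      simp only [ncSet, mem_filter, mem_product, mem_Ioc] at hp
      obtain ⟨⟨⟨h4, h5⟩, h6, h7⟩, h8⟩ := hp
      apply h8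
      have : p.1 = 1 := by omega
      rw [this]; exact Nat.coprime_one_left _
    omega
  have hdx : 2 * (d : ℤ) ≤ x - 1 := by
    have : (2 : ℤ) * d ≤ I * d := mul_le_mul_of_nonneg_right (by omega) (by omega)
    omega
  by_cases hJM : J ≤ M
  · -- all right pairs are good
    have h5 : (cpSet J).filter (fun p => p.2 ≤ M ∨ p.2 = p.1 + 1) = cpSet J := by
      rw [filter_eq_self]
      intro p hp
      simp only [cpSet, mem_filter, mem_product, mem_Ioc] at hp
      left; omega
    rw [h5] at hq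
    by_cases hJ2 : 2 ≤ J
    · have := nc_ineq' I J hI2 hJ2
      by_cases hE : Exc R
      · rw [if_pos hE]; omega
      · rw [if_neg hE]
        have := hRR' hI2 hJ2 hE
        omega
    · have hnc : (ncSet I J).card = 0 := by
        rw [card_eq_zero, eq_empty_iff_forall_notMem]
        intro p hp
        simp only [ncSet, mem_filter, mem_product, mem_Ioc] at hp
        obtain ⟨⟨⟨h4, h5⟩, h6, h7⟩, h8⟩ := hp
        apply h8
        have : p.2 = 1 := by omega
        rw [this]; exact Nat.coprime_one_right _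
      omega
  · push Not at hJM
    have hr := card_right' J M hJM.le
    have hncl := nc_le I J
    -- M ≥ 97 I, J ≤ 2 M
    have hMI : 97 * (I : ℤ) ≤ M := by
      by_contra hcon
      push Not at hcon
      have h6 : ((M : ℤ) + 1) * d ≤ (97 * I) * d := mul_le_mul_of_nonneg_right (by omega) (by omega)
      have h7 : (97 * (I : ℤ)) * d = 97 * (I * d) := by ring
      omega
    have hJM2 : (J : ℤ) ≤ 2 * M := by
      by_contra hcon
      push Not at hcon
      have h6 : (2 * (M : ℤ) + 1) * d ≤ J * d := mul_le_mul_of_nonneg_right (by omega) (by omega)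
      have h7 : (2 * (M : ℤ) + 1) * d = 2 * (((M : ℤ) + 1) * d) - d := by ring
      omega
    have hM2 : 2 ≤ M := by omega
    have hcp := cp_lower M hM2
    have hMI' : 97 * I ≤ M := by omega
    have hJM2' : J ≤ 2 * M := by omega
    have h8 : I * J ≤ I * (2 * M) := Nat.mul_le_mul_left _ hJM2'
    have h9 : 97 * (I * M) ≤ M * M := by
      have := Nat.mul_le_mul_right M hMI'
      calc 97 * (I * M) = 97 * I * M := by ring
        _ ≤ M * M := this
    have h10 : I * (2 * M) = 2 * (I * M) := by ring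
    have h11 : M ^ 2 = M * M := by ring
    have h12 : 194 * M ≤ M * M := Nat.mul_le_mul_right M (by omega)
    have h13 : (ncSet I J).card + M ≤ (cpSet M).card := by
      rw [h11] at hcp
      have h14 : (ncSet I J).card ≤ 2 * (I * M) := by
        rw [← h10]; exact hncl.trans h8
      have h15 : 2 ≤ M := hM2
      generalize M * M = q at *
      generalize I * M = r at *
      omega
    have h16 : R.card ≤ (lab R M).card := by omega
    exact h16.trans (Nat.le_add_right _ _)

end Pool.Agent.APHM
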